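import Pool.Agent.Helper94.Tot.Goals

/-!
# Normal order of the iterated totient class: the packet PA
-/

set_option autoImplicit false

open Finset Filter Topology

namespace Pool.Agent.Helper27.Tot

open Pool.Agent.Helper94.Tot

theorem pf_PA (hMP : StmtMP) : StmtPA := by
  obtain ⟨C, hC, hM⟩ := hMP
  refine ⟨C, hC, ?_⟩
  intro u v a hu huv ha
  set S0 := (Ioc u v).filter (fun p => p.Prime ∧ ¬ p ∣ a) with hS0
  set S1 := (Ioc u v).filter (fun p => p.Prime ∧ p ∣ a) with hS1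
  have hdisj : Disjoint S0 S1 := by
    rw [Finset.disjoint_left]
    intro p h0 h1
    rw [hS0, mem_filter] at h0
    rw [hS1, mem_filter] at h1
    exact h0.2.2 h1.2.2
  have hunion : (Ioc u v).filter Nat.Prime = S0 ∪ S1 := by
    ext p
    simp only [hS0, hS1, mem_union, mem_filter]
    tauto
  have hu0 : (0 : ℝ) < u := by
    have : 0 < u := by omega
    exact_mod_cast this
  have hu4 : (4 : ℝ) ≤ u := by exact_mod_cast hu
  have hfac : ∀ p ∈ Ioc u v, (0 : ℝ) ≤ 1 - 1 / p := by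
    intro p hp
    rw [mem_Ioc] at hp
    have hp1 : (1 : ℝ) ≤ p := by
      have : 1 ≤ p := by omega
      exact_mod_cast this
    rw [sub_nonneg, div_le_one (by linarith)]
    exact hp1
  have hone : ∀ p ∈ S1, (1 : ℝ) ≤ (1 - 1 / p) * Real.exp (2 / u) := by
    intro p hp
    rw [hS1, mem_filter, mem_Ioc] at hp
    have hpu : (u : ℝ) ≤ p := by exact_mod_cast hp.1.1.le
    have h1 : 1 - 1 / (u : ℝ) ≤ 1 - 1 / p := by
      have := one_div_le_one_div_of_le hu0 hpu
      linarith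
    have h2 : 1 + 2 / (u : ℝ) ≤ Real.exp (2 / u) := by
      have := Real.add_one_le_exp (2 / (u : ℝ))
      linarith
    have h3 : 0 ≤ 1 - 1 / (u : ℝ) := by
      rw [sub_nonneg, div_le_one hu0]
      linarith
    have h4 : (0 : ℝ) ≤ 1 + 2 / u := by positivity
    have h5 : (1 - 1 / (u : ℝ)) * (1 + 2 / u) ≤ (1 - 1 / p) * Real.exp (2 / u) :=
      mul_le_mul h1 h2 h4 (h3.trans h1)
    refine le_trans ?_ h5
    have h6 : (1 - 1 / (u : ℝ)) * (1 + 2 / u) = 1 + (u - 2) / u ^ 2 := by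
      field_simp
      ring
    rw [h6]
    have : 0 ≤ ((u : ℝ) - 2) / u ^ 2 := div_nonneg (by linarith) (by positivity)
    linarith
  have hprod1 : (1 : ℝ) ≤ ∏ p ∈ S1, ((1 - 1 / (p : ℝ)) * Real.exp (2 / u)) := by
    have := Finset.prod_le_prod (s := S1) (f := fun _ : ℕ => (1 : ℝ))
      (g := fun p : ℕ => (1 - 1 / (p : ℝ)) * Real.exp (2 / u)) (fun _ _ => zero_le_one) hone
    simpa using this
  have hprod0 : (0 : ℝ) ≤ ∏ p ∈ S0, (1 - 1 / (p : ℝ)) := by
    apply Finset.prod_nonneg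
    intro p hp
    exact hfac p (mem_filter.1 hp).1
  have hexp : Real.exp (2 / u) ^ S1.card = Real.exp (2 * (S1.card : ℝ) / u) := by
    rw [← Real.exp_nat_mul]
    congr 1
    ring
  have hMu := hM u v (by omega) huv
  rw [hunion, Finset.prod_union hdisj] at hMu
  calc ∏ p ∈ S0, (1 - 1 / (p : ℝ))
      = (∏ p ∈ S0, (1 - 1 / (p : ℝ))) * 1 := (mul_one _).symm
    _ ≤ (∏ p ∈ S0, (1 - 1 / (p : ℝ))) * ∏ p ∈ S1, ((1 - 1 / (p : ℝ)) * Real.exp (2 / u)) :=
        mul_le_mul_of_nonneg_left hprod1 hprod0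
    _ = ((∏ p ∈ S0, (1 - 1 / (p : ℝ))) * ∏ p ∈ S1, (1 - 1 / (p : ℝ))) *
          Real.exp (2 * (S1.card : ℝ) / u) := by
        rw [Finset.prod_mul_distrib, Finset.prod_const, hexp]
        ring
    _ ≤ C * (Real.log u / Real.log v) * Real.exp (2 * (S1.card : ℝ) / u) :=
        mul_le_mul_of_nonneg_right hMu (Real.exp_pos _).le

end Pool.Agent.Helper27.Tot
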